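import Mathlib
import Pool.Agent.Lib.MP_b7b920_al_c20.Main

namespace Pool.Agent.Results.MP_b7b920_al.RankIsHirschLength

open Pool.MP_b7b920_al Pool.MP_b7b920_al.H55 Pool.MP_b7b920_al.C20

/-- The only element of finite order is the identity. -/
def TorsionFree (G : Type) [Group G] : Prop := ∀ g : G, IsOfFinOrder g → g = 1

/-- `r(H) = r(G) = h(G)`: in a torsion-free soluble group `G` every subgroup `H` of finite index
has the same special rank as `G`, and this rank is the Hirsch length of `G` (all three may be
infinite). -/
theorem result (G : Type) [Group G] (hG : Group.IsSolvable G) (htf : TorsionFree G)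
    (H : Subgroup G) (hH : H.FiniteIndex) :
    specialRank H = specialRank G ∧ specialRank G = hirsch G :=
  ⟨specialRank_index G htf H hH.index_ne_zero, specialRank_eq_hirsch G htf⟩

end Pool.Agent.Results.MP_b7b920_al.RankIsHirschLength
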